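import Mathlib

set_option autoImplicit false
set_option linter.unusedSectionVars false

namespace Pool.Agent.Results.MP_d5c33c_co.Spectrum

open Finset Matrix

variable {X S : Type} [Fintype X] [DecidableEq X] [Fintype S] [DecidableEq S]

/-- A coherent configuration given by its colouring `c` of ordered pairs, with intersection
numbers `p a b e = p^e_{ab}` and valencies `k`. -/
structure Coherent (c : X → X → S) (p : S → S → S → ℕ) (k : S → ℕ) : Prop where
  nonempty : ∀ a, ∃ x y, c x y = a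
  diag : ∀ x y z, c x x = c y z → y = z
  transpose : ∀ a, ∃ b, ∀ x y, c x y = a ↔ c y x = b
  inter : ∀ a b x y, (univ.filter fun z => c x z = a ∧ c z y = b).card = p a b (c x y)
  valency : ∀ x y, (univ.filter fun z => c x z = c x y).card = k (c x y)

/-- `∇^e_{ab}` -/
noncomputable def nabla (p : S → S → S → ℕ) (k : S → ℕ) (e a b : S) : ℝ :=
  Real.sqrt (k e / (k a * k b)) * p a b e

/-- the matrix `O` -/
noncomputable def O (p : S → S → S → ℕ) (k : S → ℕ) : Matrix S S ℝ :=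
  fun a b => ∑ r, ∑ q, nabla p k a r q * nabla p k b r q

theorem fibre (U : Finset X) (hU : U.Nonempty) (hn : 2 ≤ Fintype.card X) (a : X → ℝ) :
    ∑ x ∈ U, ∑ z, (((if x = z then 1 else 0) - if z ∈ U then (U.card : ℝ)⁻¹ else 0) *
      (a z - (∑ u ∈ U, a u) * (U.card : ℝ)⁻¹) +
        (∑ u ∈ U, a u) * (U.card : ℝ)⁻¹ / Fintype.card X) ^ 2 ≤
      (1 - (Fintype.card X : ℝ)⁻¹) * ∑ x ∈ U, a x ^ 2 := by
  have hm : (1 : ℝ) ≤ U.card := by exact_mod_cast hU.card_pos
  have hmn : (U.card : ℝ) ≤ Fintype.card X := by exact_mod_cast U.card_le_univ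
  have hn2 : (2 : ℝ) ≤ Fintype.card X := by exact_mod_cast hn
  set m : ℝ := (U.card : ℝ) with hm'
  set n : ℝ := (Fintype.card X : ℝ) with hn'
  set s := ∑ u ∈ U, a u with hs
  have h1 : ∀ z, ∑ x ∈ U, (((if x = z then 1 else 0) - if z ∈ U then m⁻¹ else 0) *
      (a z - s * m⁻¹) + s * m⁻¹ / n) ^ 2 =
      (if z ∈ U then (1 - m⁻¹) * (a z - s * m⁻¹) ^ 2 else 0) + m * (s * m⁻¹ / n) ^ 2 := by
    intro z
    split_ifs with hz
    · rw [← Finset.add_sum_erase _ _ hz, Finset.sum_congr rfl fun x hx => by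
        rw [if_neg (Finset.ne_of_mem_erase hx)], Finset.sum_const, Finset.card_erase_of_mem hz,
        nsmul_eq_mul, Nat.cast_sub hU.card_pos, if_pos rfl, ← hm']
      field_simp
      ring
    · rw [Finset.sum_congr rfl fun x hx => by rw [if_neg fun e : x = z => hz (e ▸ hx)],
        Finset.sum_const, nsmul_eq_mul, ← hm']
      ring
  rw [Finset.sum_comm]
  simp only [h1]
  rw [Finset.sum_add_distrib, Finset.sum_ite_mem, Finset.univ_inter, ← Finset.mul_sum,
    Finset.sum_const, Finset.card_univ, nsmul_eq_mul, ← hn']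
  have h2 : ∑ x ∈ U, a x ^ 2 = ∑ x ∈ U, (a x - s * m⁻¹) ^ 2 + s ^ 2 * m⁻¹ := by
    simp only [sub_sq, Finset.sum_add_distrib, Finset.sum_sub_distrib, ← Finset.sum_mul,
      ← Finset.mul_sum, Finset.sum_const, nsmul_eq_mul, ← hs, ← hm']
    field_simp
    ring
  have h3 : 0 ≤ ∑ x ∈ U, (a x - s * m⁻¹) ^ 2 := Finset.sum_nonneg fun _ _ => sq_nonneg _
  have h4 : n⁻¹ ≤ m⁻¹ := inv_anti₀ (by linarith) hmn
  have h5 : n⁻¹ ≤ 2⁻¹ := inv_anti₀ (by norm_num) hn2
  have h6 : 0 ≤ s ^ 2 * m⁻¹ := by positivity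
  have h7 : n * (m * (s * m⁻¹ / n) ^ 2) = n⁻¹ * (s ^ 2 * m⁻¹) := by field_simp
  rw [h2, h7]
  nlinarith

variable {c : X → X → S} {p : S → S → S → ℕ} {k : S → ℕ}

theorem Coherent.ends (h : Coherent c p k) {x y x' y' : X} (e : c x y = c x' y') :
    c x x = c x' x' ∧ c y y = c y' y' := by
  constructor
  · have h1 := h.inter (c x x) (c x y) x y
    rw [e, ← h.inter] at h1
    obtain ⟨z, hz⟩ := Finset.card_pos.1 (h1 ▸ Finset.card_pos.2 ⟨x, by simp [e]⟩)
    have h2 := (Finset.mem_filter.1 hz).2.1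
    rw [← h2, ← h.diag _ _ _ h2.symm]
  · have h1 := h.inter (c x y) (c y y) x y
    rw [e, ← h.inter] at h1
    obtain ⟨z, hz⟩ := Finset.card_pos.1 (h1 ▸ Finset.card_pos.2 ⟨y, by simp [e]⟩)
    have h2 := (Finset.mem_filter.1 hz).2.2
    rw [← h2, h.diag _ _ _ h2.symm]

theorem Coherent.row (h : Coherent c p k) {x x' : X} (e : c x x = c x' x') (a : S) :
    (univ.filter fun z => c x z = a).card = (univ.filter fun z => c x' z = a).card := by
  obtain ⟨b, hb⟩ := h.transpose a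
  have : ∀ x, (univ.filter fun z => c x z = a).card = p a b (c x x) := fun x => by
    rw [← h.inter]
    congr 2
    ext z
    rw [← hb, and_self]
  rw [this, this, e]

theorem Coherent.col (h : Coherent c p k) {y y' : X} (e : c y y = c y' y') (f : S → ℝ) :
    ∑ z, f (c z y) = ∑ z, f (c z y') := by
  rw [← Finset.sum_fiberwise' univ (fun z => c z y), ← Finset.sum_fiberwise' univ (fun z => c z y')]
  refine Finset.sum_congr rfl fun a _ => ?_
  obtain ⟨b, hb⟩ := h.transpose a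
  simp only [Finset.sum_const, hb, h.row e]

/-- the fibre of a point -/
def U (c : X → X → S) (x : X) : Finset X := univ.filter fun z => c z z = c x x

theorem mem_U (x : X) : x ∈ U c x := by simp [U]

theorem Coherent.weight (h : Coherent c p k) (g : S → ℝ) :
    ∑ x, ((U c x).card : ℝ)⁻¹ * ∑ y, g (c x y) = ∑ a, k a * g a := by
  simp only [fun x => (Finset.sum_fiberwise' univ (fun y => c x y) g).symm, Finset.sum_const,
    nsmul_eq_mul, Finset.mul_sum]
  rw [Finset.sum_comm]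
  refine Finset.sum_congr rfl fun a _ => ?_
  obtain ⟨x0, y0, rfl⟩ := h.nonempty a
  have : ∀ x, ((U c x).card : ℝ)⁻¹ * ((univ.filter fun y => c x y = c x0 y0).card *
      g (c x0 y0)) = if x ∈ U c x0 then ((U c x0).card : ℝ)⁻¹ * (k (c x0 y0) * g (c x0 y0))
      else 0 := by
    intro x
    split_ifs with hx
    · have e := (Finset.mem_filter.1 hx).2
      rw [h.row e, h.valency, U, U, e]
    · rw [Finset.filter_eq_empty_iff.2 fun y _ e => hx (by simpa [U] using (h.ends e).1)]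
      simp
  simp only [this]
  have h0 : ((U c x0).card : ℝ) ≠ 0 := by exact_mod_cast (Finset.card_pos.2 ⟨_, mem_U x0⟩).ne'
  rw [Finset.sum_ite_mem, Finset.univ_inter, Finset.sum_const, nsmul_eq_mul]
  field_simp

theorem Coherent.pos (h : Coherent c p k) (a : S) : (0 : ℝ) < k a := by
  obtain ⟨x, y, rfl⟩ := h.nonempty a
  rw [← h.valency]
  exact_mod_cast Finset.card_pos.2 ⟨y, by simp⟩

/-- weighted sum over paths of given colours -/
noncomputable def T (c : X → X → S) (G : X → X → ℝ) (r q : S) : ℝ :=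
  ∑ x, ((U c x).card : ℝ)⁻¹ * ∑ z, ∑ y, if c x z = r ∧ c z y = q then G x y else 0

theorem sum_T (G : X → X → ℝ) (τ : S → S → ℝ) : ∑ r, ∑ q, τ r q * T c G r q =
    ∑ x, ((U c x).card : ℝ)⁻¹ * ∑ z, ∑ y, τ (c x z) (c z y) * G x y := by
  simp only [T, Finset.mul_sum]
  rw [Finset.sum_congr rfl fun r _ => Finset.sum_comm, Finset.sum_comm]
  refine Finset.sum_congr rfl fun x _ => ?_
  rw [Finset.sum_congr rfl fun r _ => Finset.sum_comm, Finset.sum_comm]
  refine Finset.sum_congr rfl fun z _ => ?_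
  rw [Finset.sum_congr rfl fun r _ => Finset.sum_comm, Finset.sum_comm]
  refine Finset.sum_congr rfl fun y _ => ?_
  simp only [ite_and, mul_ite, mul_zero, Finset.sum_ite_irrel, Finset.sum_ite_eq, mem_univ, if_true,
    Finset.sum_const_zero]
  ring

theorem Coherent.T_eq (h : Coherent c p k) (A : S → ℝ) (r q : S) :
    T c (fun x y => A (c x y)) r q = ∑ a, k a * (p r q a * A a) := by
  rw [← h.weight]
  refine Finset.sum_congr rfl fun x _ => ?_
  rw [Finset.sum_comm]
  congr 1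
  refine Finset.sum_congr rfl fun y _ => ?_
  rw [← Finset.sum_filter, Finset.sum_const, h.inter, nsmul_eq_mul]

theorem Coherent.T_one (h : Coherent c p k) (x z y : X) :
    T c (fun _ _ => 1) (c x z) (c z y) = k (c x z) * k (c z y) := by
  have := h.weight fun a => if a = c x z then (k (c z y) : ℝ) else 0
  simp only [mul_ite, mul_zero, Finset.sum_ite_eq', mem_univ, if_true] at this
  rw [← this]
  refine Finset.sum_congr rfl fun x' _ => ?_
  congr 1
  refine Finset.sum_congr rfl fun z' _ => ?_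
  split_ifs with e
  · simp only [e, true_and]
    rw [← Finset.sum_filter, Finset.sum_const, h.row (h.ends e).2, h.valency, nsmul_eq_mul, mul_one]
  · simp [e]

/-- the test function -/
noncomputable def t (c : X → X → S) (A : S → ℝ) (x z y : X) : ℝ :=
  ((if x = z then 1 else 0) - if z ∈ U c x then ((U c x).card : ℝ)⁻¹ else 0) *
    (A (c z y) - (∑ u ∈ U c x, A (c u y)) * ((U c x).card : ℝ)⁻¹) +
      (∑ u ∈ U c x, A (c u y)) * ((U c x).card : ℝ)⁻¹ / Fintype.card X

theorem Coherent.t_inv (h : Coherent c p k) (A : S → ℝ) {x z y x' z' y' : X}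
    (e1 : c x z = c x' z') (e2 : c z y = c z' y') : t c A x z y = t c A x' z' y' := by
  have u1 : U c x = U c x' := by rw [U, U, (h.ends e1).1]
  have u2 : x = z ↔ x' = z' :=
    ⟨fun e => h.diag x _ _ (by rw [← e1, e]), fun e => h.diag x' _ _ (by rw [e1, e])⟩
  have u3 : z ∈ U c x' ↔ z' ∈ U c x' := by simp [U, (h.ends e1).2]
  have u4 : ∑ u ∈ U c x', A (c u y) = ∑ u ∈ U c x', A (c u y') := by
    choose f g hfg using h.nonempty
    have := h.col (h.ends e2).2 fun a => if c (f a) (f a) = c x' x' then A a else 0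
    simp only [fun u v => (h.ends (hfg (c u v))).1] at this
    simpa only [U, Finset.sum_filter] using this
  simp only [t, u1, u2, u3, u4, e2]

theorem t_sum (A : S → ℝ) (x y : X) : ∑ z, t c A x z y = A (c x y) := by
  have h0 : ((U c x).card : ℝ) ≠ 0 := by exact_mod_cast (Finset.card_pos.2 ⟨_, mem_U x⟩).ne'
  have h1 : (Fintype.card X : ℝ) ≠ 0 := by exact_mod_cast (Fintype.card_pos_iff.2 ⟨x⟩).ne'
  simp only [t, sub_mul, ite_mul, one_mul, zero_mul, Finset.sum_add_distrib, Finset.sum_sub_distrib,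
    Finset.sum_ite_eq, mem_univ, if_true, Finset.sum_ite_mem, Finset.univ_inter, ← Finset.mul_sum,
    Finset.sum_const, Finset.card_univ, nsmul_eq_mul]
  field_simp
  ring

theorem t_sq (hn : 2 ≤ Fintype.card X) (A : S → ℝ) :
    ∑ x, ((U c x).card : ℝ)⁻¹ * ∑ z, ∑ y, t c A x z y ^ 2 ≤
      (1 - (Fintype.card X : ℝ)⁻¹) * ∑ x, ((U c x).card : ℝ)⁻¹ * ∑ y, A (c x y) ^ 2 := by
  rw [← Finset.sum_fiberwise univ (fun x => c x x), ← Finset.sum_fiberwise univ (fun x => c x x)
    fun x => ((U c x).card : ℝ)⁻¹ * ∑ y, A (c x y) ^ 2, Finset.mul_sum]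
  refine Finset.sum_le_sum fun e _ => ?_
  rcases (univ.filter fun x => c x x = e).eq_empty_or_nonempty with h | h
  · simp [h]
  set V := univ.filter fun x => c x x = e with hV
  have hU : ∀ x ∈ V, U c x = V := fun x hx => by rw [U, (Finset.mem_filter.1 hx).2]
  have e1 : ∑ x ∈ V, ((U c x).card : ℝ)⁻¹ * ∑ z, ∑ y, t c A x z y ^ 2 = (V.card : ℝ)⁻¹ *
      ∑ x ∈ V, ∑ y, ∑ z, (((if x = z then 1 else 0) - if z ∈ V then (V.card : ℝ)⁻¹ else 0) *
      (A (c z y) - (∑ u ∈ V, A (c u y)) * (V.card : ℝ)⁻¹) +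
        (∑ u ∈ V, A (c u y)) * (V.card : ℝ)⁻¹ / Fintype.card X) ^ 2 := by
    rw [Finset.mul_sum]
    refine Finset.sum_congr rfl fun x hx => ?_
    rw [Finset.sum_comm]
    unfold t
    rw [hU x hx]
  have e2 : ∑ x ∈ V, ((U c x).card : ℝ)⁻¹ * ∑ y, A (c x y) ^ 2 =
      (V.card : ℝ)⁻¹ * ∑ x ∈ V, ∑ y, A (c x y) ^ 2 := by
    rw [Finset.mul_sum]
    exact Finset.sum_congr rfl fun x hx => by rw [hU x hx]
  rw [e1, e2, mul_left_comm]
  refine mul_le_mul_of_nonneg_left ?_ (by positivity)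
  rw [Finset.sum_comm, Finset.sum_comm (s := V), Finset.mul_sum]
  exact Finset.sum_le_sum fun y _ => fibre V h hn fun z => A (c z y)

/-- Every eigenvalue of `O` is at least `n / (n - 1)`. -/
theorem result (X S : Type) [Fintype X] [DecidableEq X] [Fintype S] [DecidableEq S]
    (c : X → X → S) (p : S → S → S → ℕ) (k : S → ℕ) (h : Coherent c p k)
    (hn : 2 ≤ Fintype.card X) (lam : ℝ) (v : S → ℝ) (hv : v ≠ 0) (hO : O p k *ᵥ v = lam • v) :
    (Fintype.card X : ℝ) / (Fintype.card X - 1) ≤ lam := by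
  classical
  have hn2 : (2 : ℝ) ≤ Fintype.card X := by exact_mod_cast hn
  set n : ℝ := (Fintype.card X : ℝ) with hn'
  set A : S → ℝ := fun a => v a / Real.sqrt (k a) with hA
  set μ := n / (n - 1) with hμ
  have hμ0 : 0 < μ := div_pos (by linarith) (by linarith)
  let τ : S → S → ℝ := fun r q =>
    if e : ∃ w : X × X × X, c w.1 w.2.1 = r ∧ c w.2.1 w.2.2 = q then
      t c A e.choose.1 e.choose.2.1 e.choose.2.2 else 0
  have hτ : ∀ x z y, τ (c x z) (c z y) = t c A x z y := fun x z y => by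
    have e : ∃ w : X × X × X, c w.1 w.2.1 = c x z ∧ c w.2.1 w.2.2 = c z y := ⟨(x, z, y), rfl, rfl⟩
    exact (dif_pos e).trans (h.t_inv A e.choose_spec.1 e.choose_spec.2)
  have q1 : lam * ∑ a, v a ^ 2 = ∑ r, ∑ q, (∑ a, nabla p k a r q * v a) ^ 2 := by
    have : ∑ a, v a * (O p k *ᵥ v) a = lam * ∑ a, v a ^ 2 := by
      rw [hO, Finset.mul_sum]
      exact Finset.sum_congr rfl fun a _ => by simp; ring
    rw [← this]
    simp only [mulVec, dotProduct, O, sq, Finset.sum_mul, Finset.mul_sum]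
    symm
    rw [Finset.sum_congr rfl fun r _ => Finset.sum_comm, Finset.sum_comm]
    refine Finset.sum_congr rfl fun a _ => ?_
    rw [Finset.sum_congr rfl fun r _ => Finset.sum_comm, Finset.sum_comm]
    refine Finset.sum_congr rfl fun b _ => Finset.sum_congr rfl fun r _ =>
      Finset.sum_congr rfl fun q _ => by ring
  have q2 : ∀ r q, Real.sqrt (k r * k q) * ∑ a, nabla p k a r q * v a =
      T c (fun x y => A (c x y)) r q := fun r q => by
    rw [h.T_eq, Finset.mul_sum]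
    refine Finset.sum_congr rfl fun a _ => ?_
    have a1 := Real.sqrt_pos.2 (h.pos a)
    have a2 := Real.sqrt_pos.2 (mul_pos (h.pos r) (h.pos q))
    have a3 := Real.sq_sqrt (h.pos a).le
    rw [nabla, Real.sqrt_div (h.pos a).le, hA]
    field_simp
    rw [a3]
    ring
  have q3 : ∀ r q, 2 * μ * (τ r q * T c (fun x y => A (c x y)) r q) -
      μ ^ 2 * (τ r q ^ 2 * T c (fun _ _ => 1) r q) ≤ (∑ a, nabla p k a r q * v a) ^ 2 := by
    intro r q
    by_cases e : ∃ w : X × X × X, c w.1 w.2.1 = r ∧ c w.2.1 w.2.2 = q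
    · obtain ⟨⟨x, z, y⟩, rfl, rfl⟩ := e
      rw [← q2, h.T_one, ← Real.sq_sqrt (mul_pos (h.pos _) (h.pos _)).le, Real.sqrt_sq
        (Real.sqrt_nonneg _)]
      nlinarith [sq_nonneg (μ * τ (c x z) (c z y) * Real.sqrt (k (c x z) * k (c z y)) -
        ∑ a, nabla p k a (c x z) (c z y) * v a)]
    · have : τ r q = 0 := dif_neg e
      rw [this]
      simpa using sq_nonneg _
  have q4 : ∑ x, ((U c x).card : ℝ)⁻¹ * ∑ y, A (c x y) ^ 2 = ∑ a, v a ^ 2 := by
    rw [h.weight fun a => A a ^ 2]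
    refine Finset.sum_congr rfl fun a _ => ?_
    have := h.pos a
    rw [hA, div_pow, Real.sq_sqrt this.le]
    field_simp
  have q5 : ∑ r, ∑ q, τ r q * T c (fun x y => A (c x y)) r q = ∑ a, v a ^ 2 := by
    rw [sum_T, ← q4]
    refine Finset.sum_congr rfl fun x _ => ?_
    rw [Finset.sum_comm]
    simp only [hτ, ← Finset.sum_mul, t_sum, sq]
  have q6 := t_sq (c := c) hn A
  have q7 := sum_T (c := c) (fun _ _ => 1) fun r q => τ r q ^ 2
  simp only [hτ, mul_one] at q7
  rw [← q7, q4, ← hn'] at q6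
  have q8 := Finset.sum_le_sum (s := univ) fun r _ =>
    Finset.sum_le_sum (s := univ) fun q _ => q3 r q
  simp only [Finset.sum_sub_distrib, ← Finset.mul_sum] at q8
  rw [q5, ← q1] at q8
  have q9 : 0 < ∑ a, v a ^ 2 := by
    obtain ⟨a, ha⟩ := Function.ne_iff.1 hv
    exact Finset.sum_pos' (fun _ _ => sq_nonneg _) ⟨a, mem_univ _, sq_pos_of_ne_zero ha⟩
  have q10 : μ * (1 - n⁻¹) = 1 := by
    have : n - 1 ≠ 0 := by linarith
    rw [hμ]
    field_simp
  have q11 := mul_le_mul_of_nonneg_left q6 (sq_nonneg μ)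
  refine le_of_mul_le_mul_right ?_ q9
  have : μ ^ 2 * ((1 - n⁻¹) * ∑ a, v a ^ 2) = μ * ∑ a, v a ^ 2 := by
    linear_combination (μ * ∑ a, v a ^ 2) * q10
  linarith

end Pool.Agent.Results.MP_d5c33c_co.Spectrum
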